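import Mathlib

namespace Pool.Agent.Results.MP_f47cd5_co.CompleteArcLower

open Set

/-- The closed circular arc of radius `r` centred at the origin, with angles from `a` to `b`. -/
def arc (r a b : ℝ) : Set ℂ :=
  {z | ∃ t ∈ Set.Icc a b, z = (r : ℂ) * Complex.exp ((t : ℂ) * Complex.I)}

/-- The region swept by the segments from `x e^{iθ}` to `y e^{iθ}`, for `θ ∈ [a, b]`.
The radii `x`, `y` are signed.  If they have the same sign the region is a sector of an annulus;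
if they have opposite signs the two radial sides cross at the origin. -/
def cone (x y a b : ℝ) : Set ℂ :=
  {z | ∃ s ∈ Set.uIcc x y, ∃ t ∈ Set.Icc a b, z = (s : ℂ) * Complex.exp ((t : ℂ) * Complex.I)}

/-- A family of pairwise disjoint arcs centred at the origin, indexed by `V`. -/
structure ArcFamily (V : Type) where
  /-- radii -/
  r : V → ℝ
  /-- angles of the negative endpoints -/
  lo : V → ℝ
  /-- angles of the positive endpoints -/
  hi : V → ℝ
  r_pos : ∀ v, 0 < r v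
  lo_mem : ∀ v, lo v ∈ Set.Ico 0 (2 * Real.pi)
  len_mem : ∀ v, hi v - lo v ∈ Set.Ico 0 (2 * Real.pi)
  disj : ∀ u v, u ≠ v → Disjoint (arc (r u) (lo u) (hi u)) (arc (r v) (lo v) (hi v))

/-- The arc of the vertex `v`. -/
def ArcFamily.A {V : Type} (F : ArcFamily V) (v : V) : Set ℂ := arc (F.r v) (F.lo v) (F.hi v)

/-- `u` and `v` are `k`-visible: some non-degenerate cone has its circular sides in the
arcs of `u` and `v`, and meets at most `k` of the other arcs.  (Asking that the cone has angular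
width less than `π` is no restriction, since a narrower cone meets no more arcs.) -/
def ArcFamily.KVisible {V : Type} (F : ArcFamily V) (k : ℕ) (u v : V) : Prop :=
  ∃ x y a b : ℝ, x ≠ 0 ∧ y ≠ 0 ∧ x ≠ y ∧ a < b ∧ b - a < Real.pi ∧
    (∀ t ∈ Set.Icc a b, (x : ℂ) * Complex.exp ((t : ℂ) * Complex.I) ∈ F.A u) ∧
    (∀ t ∈ Set.Icc a b, (y : ℂ) * Complex.exp ((t : ℂ) * Complex.I) ∈ F.A v) ∧
    {w : V | w ≠ u ∧ w ≠ v ∧ (F.A w ∩ cone x y a b).Nonempty}.encard ≤ k

/-- `G` is an arc `k`-visibility graph. -/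
def IsArcKVis {V : Type} (k : ℕ) (G : SimpleGraph V) : Prop :=
  ∃ F : ArcFamily V, ∀ u v, u ≠ v → (G.Adj u v ↔ F.KVisible k u v)

/-! ### Points of arcs on rays -/

lemma exp_eq_pos (r t α θ : ℝ) (hr : 0 < r) (ht : 0 < t)
    (h : (t : ℂ) * Complex.exp ((θ : ℂ) * Complex.I) = (r : ℂ) * Complex.exp ((α : ℂ) * Complex.I)) :
    t = r ∧ ∃ m : ℤ, α = θ + m * (2 * Real.pi) := by
  have hn : t = r := by
    have h1 := congrArg (fun z : ℂ => ‖z‖) h
    simp only [norm_mul, Complex.norm_exp_ofReal_mul_I, mul_one, Complex.norm_real,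
      Real.norm_eq_abs] at h1
    rwa [abs_of_pos hr, abs_of_pos ht] at h1
  refine ⟨hn, ?_⟩
  have hr0 : (r : ℂ) ≠ 0 := by exact_mod_cast hr.ne'
  rw [hn] at h
  have h3 := mul_left_cancel₀ hr0 h
  rw [eq_comm, Complex.exp_eq_exp_iff_exists_int] at h3
  obtain ⟨m, hm⟩ := h3
  refine ⟨m, ?_⟩
  have h5 : ((α : ℂ)) * Complex.I = ((θ + m * (2 * Real.pi) : ℝ) : ℂ) * Complex.I := by
    rw [hm]; push_cast; ring
  have h6 := mul_right_cancel₀ Complex.I_ne_zero h5
  exact_mod_cast h6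

lemma exp_shift (θ : ℝ) (m : ℤ) :
    Complex.exp (((θ + m * (2 * Real.pi) : ℝ) : ℂ) * Complex.I)
      = Complex.exp ((θ : ℂ) * Complex.I) := by
  rw [Complex.exp_eq_exp_iff_exists_int]
  refine ⟨m, ?_⟩
  push_cast
  ring

lemma exp_neg (s θ : ℝ) : ((-s : ℝ) : ℂ) * Complex.exp ((θ : ℂ) * Complex.I)
    = (s : ℂ) * Complex.exp (((θ + Real.pi : ℝ) : ℂ) * Complex.I) := by
  push_cast
  rw [add_mul, Complex.exp_add, Complex.exp_pi_mul_I]
  ring

/-! ### The representation -/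

/-- Half of the number of directions. -/
def M (k : ℕ) : ℕ := 10 * k + 12

/-- Start of the arc of `v`. -/
def S (k v : ℕ) : ℕ :=
  if v < k + 1 then 9 * k + 11 + v
  else if v < 2 * k + 2 then 5 * k + 4 - v
  else if v < 3 * k + 3 then 3 * k + 2 - v
  else if v < 4 * k + 4 then 9 * k + 8 - v
  else if v < 5 * k + 5 then 6 * k + 5 - v
  else 17 * k + 19

/-- End of the arc of `v`. -/
def T (k v : ℕ) : ℕ :=
  if v < k + 1 then 15 * k + 16 - v
  else if v < 2 * k + 2 then 10 * k + 10 - v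
  else if v < 3 * k + 3 then 4 * k + 4 + v
  else if v < 4 * k + 4 then 16 * k + 17 - v
  else if v < 5 * k + 5 then 13 * k + 16 + v
  else 29 * k + 34

lemma ST (k v : ℕ) :
    (v < k + 1 ∧ S k v = 9 * k + 11 + v ∧ T k v = 15 * k + 16 - v) ∨
    (k + 1 ≤ v ∧ v < 2 * k + 2 ∧ S k v = 5 * k + 4 - v ∧ T k v = 10 * k + 10 - v) ∨
    (2 * k + 2 ≤ v ∧ v < 3 * k + 3 ∧ S k v = 3 * k + 2 - v ∧ T k v = 4 * k + 4 + v) ∨
    (3 * k + 3 ≤ v ∧ v < 4 * k + 4 ∧ S k v = 9 * k + 8 - v ∧ T k v = 16 * k + 17 - v) ∨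
    (4 * k + 4 ≤ v ∧ v < 5 * k + 5 ∧ S k v = 6 * k + 5 - v ∧ T k v = 13 * k + 16 + v) ∨
    (5 * k + 5 ≤ v ∧ S k v = 17 * k + 19 ∧ T k v = 29 * k + 34) := by
  unfold S T
  by_cases h1 : v < k + 1
  · left
    rw [if_pos h1, if_pos h1]
    exact ⟨h1, rfl, rfl⟩
  rw [if_neg h1, if_neg h1]
  by_cases h2 : v < 2 * k + 2
  · right; left
    rw [if_pos h2, if_pos h2]
    exact ⟨by omega, h2, rfl, rfl⟩
  rw [if_neg h2, if_neg h2]
  by_cases h3 : v < 3 * k + 3
  · right; right; left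
    rw [if_pos h3, if_pos h3]
    exact ⟨by omega, h3, rfl, rfl⟩
  rw [if_neg h3, if_neg h3]
  by_cases h4 : v < 4 * k + 4
  · right; right; right; left
    rw [if_pos h4, if_pos h4]
    exact ⟨by omega, h4, rfl, rfl⟩
  rw [if_neg h4, if_neg h4]
  by_cases h5 : v < 5 * k + 5
  · right; right; right; right; left
    rw [if_pos h5, if_pos h5]
    exact ⟨by omega, h5, rfl, rfl⟩
  rw [if_neg h5, if_neg h5]
  right; right; right; right; right
  exact ⟨by omega, rfl, rfl⟩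

/-- `w` is present in the direction window `j`. -/
def P (k w j : ℕ) : Prop :=
  (S k w ≤ j ∧ j < T k w) ∨ (S k w ≤ j + 2 * M k ∧ j + 2 * M k < T k w) ∨
    (S k w + 2 * M k ≤ j ∧ j < T k w + 2 * M k)

/-- Unit angle. -/
noncomputable def dl (k : ℕ) : ℝ := Real.pi / (M k : ℝ)

lemma M_pos (k : ℕ) : (0 : ℝ) < (M k : ℝ) := by
  unfold M
  positivity

lemma dl_pos (k : ℕ) : 0 < dl k := div_pos Real.pi_pos (M_pos k)

lemma dl_mul (k : ℕ) : dl k * (M k : ℝ) = Real.pi := by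
  unfold dl
  have := (M_pos k).ne'
  field_simp

lemma S_lt (k v : ℕ) : S k v < 2 * M k := by
  have := ST k v
  unfold M
  omega

lemma S_lt_T (k v : ℕ) : S k v < T k v := by
  have := ST k v
  omega

lemma T_lt (k v : ℕ) : T k v < S k v + 2 * M k := by
  have := ST k v
  unfold M
  omega

/-- The representation of `K_{5k+6}`. -/
noncomputable def F (k : ℕ) : ArcFamily (Fin (5 * k + 6)) where
  r v := (v.val : ℝ) + 1
  lo v := dl k * (S k v.val : ℝ)
  hi v := dl k * (T k v.val : ℝ)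
  r_pos v := by positivity
  lo_mem v := by
    have h1 : ((S k v.val : ℕ) : ℝ) < 2 * (M k : ℝ) := by exact_mod_cast S_lt k v.val
    have h2 := dl_pos k
    have h3 := dl_mul k
    refine ⟨by positivity, by nlinarith⟩
  len_mem v := by
    have h1 : ((T k v.val : ℕ) : ℝ) < (S k v.val : ℝ) + 2 * (M k : ℝ) := by
      exact_mod_cast T_lt k v.val
    have h4 : ((S k v.val : ℕ) : ℝ) < (T k v.val : ℝ) := by exact_mod_cast S_lt_T k v.val
    have h2 := dl_pos k
    have h3 := dl_mul k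
    refine ⟨by nlinarith, by nlinarith⟩
  disj u v huv := by
    rw [Set.disjoint_left]
    rintro z ⟨s, _, hs⟩ ⟨t, _, ht⟩
    apply huv
    rw [hs] at ht
    have h1 := congrArg (fun z : ℂ => ‖z‖) ht
    simp only [norm_mul, Complex.norm_exp_ofReal_mul_I, mul_one, Complex.norm_real,
      Real.norm_eq_abs] at h1
    rw [abs_of_pos (by positivity), abs_of_pos (by positivity)] at h1
    have h2 : (u.val : ℝ) = v.val := by linarith
    exact Fin.ext (by exact_mod_cast h2)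

/-- The start of the `j`-th window of directions. -/
noncomputable def wa (k j : ℕ) : ℝ := dl k * ((j : ℝ) + 1 / 3)
/-- The end of the `j`-th window of directions. -/
noncomputable def wb (k j : ℕ) : ℝ := dl k * ((j : ℝ) + 2 / 3)

lemma wab (k j : ℕ) : wa k j < wb k j := by
  unfold wa wb
  have h2 := dl_pos k
  nlinarith

lemma wab_lt (k j : ℕ) : wb k j - wa k j < Real.pi := by
  unfold wa wb
  have h2 := dl_pos k
  have h1 := dl_mul k
  have h3 : (12 : ℝ) ≤ (M k : ℝ) := by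
    have : 12 ≤ M k := by unfold M; omega
    exact_mod_cast this
  nlinarith

lemma wa_add (k j : ℕ) : wa k (j + M k) = wa k j + Real.pi := by
  unfold wa
  have h1 := dl_mul k
  push_cast
  rw [← h1]; ring

lemma wb_add (k j : ℕ) : wb k (j + M k) = wb k j + Real.pi := by
  unfold wb
  have h1 := dl_mul k
  push_cast
  rw [← h1]; ring

lemma present_of_P (k w j : ℕ) (r θ : ℝ) (h : P k w j) (h1 : wa k j ≤ θ) (h2 : θ ≤ wb k j) :
    (r : ℂ) * Complex.exp ((θ : ℂ) * Complex.I)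
      ∈ arc r (dl k * (S k w : ℝ)) (dl k * (T k w : ℝ)) := by
  have hd := dl_pos k
  have hm := dl_mul k
  unfold wa at h1
  unfold wb at h2
  rcases h with ⟨h3, h4⟩ | ⟨h3, h4⟩ | ⟨h3, h4⟩
  · have h5 : ((S k w : ℕ) : ℝ) ≤ j := by exact_mod_cast h3
    have h6 : (j : ℝ) + 1 ≤ (T k w : ℝ) := by exact_mod_cast h4
    exact ⟨θ, ⟨by nlinarith, by nlinarith⟩, rfl⟩
  · have h5 : ((S k w : ℕ) : ℝ) ≤ j + 2 * (M k : ℝ) := by exact_mod_cast h3
    have h6 : (j : ℝ) + 2 * (M k : ℝ) + 1 ≤ (T k w : ℝ) := by exact_mod_cast h4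
    refine ⟨θ + ((1 : ℤ) : ℝ) * (2 * Real.pi), ⟨?_, ?_⟩, ?_⟩
    · push_cast; nlinarith
    · push_cast; nlinarith
    · rw [exp_shift]
  · have h5 : ((S k w : ℕ) : ℝ) + 2 * (M k : ℝ) ≤ j := by exact_mod_cast h3
    have h6 : (j : ℝ) + 1 ≤ (T k w : ℝ) + 2 * (M k : ℝ) := by exact_mod_cast h4
    refine ⟨θ + ((-1 : ℤ) : ℝ) * (2 * Real.pi), ⟨?_, ?_⟩, ?_⟩
    · push_cast; nlinarith
    · push_cast; nlinarith
    · rw [exp_shift]

lemma P_of_present (k w j : ℕ) (r s θ : ℝ) (hr : 0 < r) (hs : 0 < s) (hj : j < 4 * M k)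
    (h1 : wa k j ≤ θ) (h2 : θ ≤ wb k j)
    (h : (s : ℂ) * Complex.exp ((θ : ℂ) * Complex.I)
      ∈ arc r (dl k * (S k w : ℝ)) (dl k * (T k w : ℝ))) : s = r ∧ P k w j := by
  obtain ⟨α, ⟨ha, hb⟩, he⟩ := h
  obtain ⟨hsr, m, hα⟩ := exp_eq_pos r s α θ hr hs he
  refine ⟨hsr, ?_⟩
  have hd := dl_pos k
  have hm := dl_mul k
  have hM := M_pos k
  unfold wa at h1
  unfold wb at h2
  have e1 : dl k * (S k w : ℝ) ≤ dl k * ((j : ℝ) + 2 / 3 + m * (2 * (M k : ℝ))) := by
    have : dl k * ((j : ℝ) + 2 / 3 + m * (2 * (M k : ℝ)))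
        = dl k * ((j : ℝ) + 2 / 3) + m * (2 * Real.pi) := by rw [← hm]; ring
    rw [this]; linarith
  have e2 : dl k * ((j : ℝ) + 1 / 3 + m * (2 * (M k : ℝ))) ≤ dl k * (T k w : ℝ) := by
    have : dl k * ((j : ℝ) + 1 / 3 + m * (2 * (M k : ℝ)))
        = dl k * ((j : ℝ) + 1 / 3) + m * (2 * Real.pi) := by rw [← hm]; ring
    rw [this]; linarith
  have e3 := le_of_mul_le_mul_left e1 hd
  have e4 := le_of_mul_le_mul_left e2 hd
  have e5 : ((S k w : ℕ) : ℤ) ≤ (j : ℤ) + m * (2 * (M k : ℤ)) := by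
    have : ((S k w : ℕ) : ℝ) < (j : ℝ) + m * (2 * (M k : ℝ)) + 1 := by linarith
    have h' : ((S k w : ℕ) : ℤ) < (j : ℤ) + m * (2 * (M k : ℤ)) + 1 := by exact_mod_cast this
    omega
  have e6 : (j : ℤ) + m * (2 * (M k : ℤ)) < ((T k w : ℕ) : ℤ) := by
    have : (j : ℝ) + m * (2 * (M k : ℝ)) < ((T k w : ℕ) : ℝ) := by linarith
    exact_mod_cast this
  have hT : ((T k w : ℕ) : ℤ) < 4 * (M k : ℤ) := by
    have h1 := T_lt k w
    have h2 := S_lt k w
    omega
  have hS : (0 : ℤ) ≤ ((S k w : ℕ) : ℤ) := by positivity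
  have hj' : (j : ℤ) < 4 * (M k : ℤ) := by exact_mod_cast hj
  have hM' : (0 : ℤ) < (M k : ℤ) := by exact_mod_cast hM
  have m1 : m < 2 := by
    by_contra hc
    push Not at hc
    nlinarith
  have m2 : -2 < m := by
    by_contra hc
    push Not at hc
    nlinarith
  unfold P
  obtain rfl | rfl | rfl : m = -1 ∨ m = 0 ∨ m = 1 := by omega
  · right; right; omega
  · left; omega
  · right; left; omega

lemma card_le (N k a b : ℕ) (hab : b ≤ a + k) (S : Set (Fin N))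
    (h : ∀ w ∈ S, a ≤ w.val ∧ w.val < b) : S.encard ≤ k := by
  classical
  have h1 : (Fin.val '' S) ⊆ ((Finset.Ico a b : Finset ℕ) : Set ℕ) := by
    rintro x ⟨w, hw, rfl⟩
    have := h w hw
    simp only [Finset.coe_Ico, Set.mem_Ico]
    exact this
  have h2 : S.encard = (Fin.val '' S).encard :=
    (Function.Injective.encard_image Fin.val_injective S).symm
  rw [h2]
  refine (Set.encard_le_encard h1).trans ?_
  rw [Set.encard_coe_eq_coe_finsetCard, Nat.card_Ico]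
  exact_mod_cast (by omega : b - a ≤ k)

lemma same_ray (k : ℕ) (u v : Fin (5 * k + 6)) (huv : u.val < v.val) (j a b : ℕ)
    (hj : j < 4 * M k) (hu : P k u.val j) (hv : P k v.val j) (hab : b ≤ a + k)
    (H : ∀ w : ℕ, w < 5 * k + 6 → u.val < w → w < v.val → P k w j → a ≤ w ∧ w < b) :
    (F k).KVisible k u v := by
  have hu0 : (0 : ℝ) < (u.val : ℝ) + 1 := by positivity
  have hv0 : (0 : ℝ) < (v.val : ℝ) + 1 := by positivity
  have huv' : (u.val : ℝ) < v.val := by exact_mod_cast huv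
  refine ⟨(u.val : ℝ) + 1, (v.val : ℝ) + 1, wa k j, wb k j, hu0.ne', hv0.ne', by linarith,
    wab k j, wab_lt k j, ?_, ?_, ?_⟩
  · rintro t ⟨ht1, ht2⟩
    exact present_of_P k _ j _ t hu ht1 ht2
  · rintro t ⟨ht1, ht2⟩
    exact present_of_P k _ j _ t hv ht1 ht2
  · apply card_le _ k a b hab
    rintro w ⟨hwu, hwv, z, hz1, s, hs, t, ⟨ht1, ht2⟩, hz⟩
    have hs' := hs
    rw [Set.uIcc_of_le (by linarith)] at hs'
    rw [hz] at hz1
    have hw0 : (0 : ℝ) < (w.val : ℝ) + 1 := by positivity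
    obtain ⟨h1, h2⟩ := P_of_present k w.val j _ s t hw0 (by linarith [hs'.1]) hj ht1 ht2 hz1
    rw [h1] at hs'
    obtain ⟨h3, h4⟩ := hs'
    have h5 : u.val ≤ w.val := by
      have : (u.val : ℝ) ≤ w.val := by linarith
      exact_mod_cast this
    have h6 : w.val ≤ v.val := by
      have : (w.val : ℝ) ≤ v.val := by linarith
      exact_mod_cast this
    have h7 : u.val ≠ w.val := fun h => hwu (Fin.ext h.symm)
    have h8 : w.val ≠ v.val := fun h => hwv (Fin.ext h)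
    exact H w.val w.isLt (by omega) (by omega) h2

lemma centre (k : ℕ) (u v : Fin (5 * k + 6)) (j a b : ℕ)
    (hj : j + M k < 4 * M k) (hu : P k u.val j) (hv : P k v.val (j + M k)) (hab : b ≤ a + k)
    (H1 : ∀ w : ℕ, w < 5 * k + 6 → w < u.val → w ≠ v.val → P k w j → a ≤ w ∧ w < b)
    (H2 : ∀ w : ℕ, w < 5 * k + 6 → w < v.val → w ≠ u.val → P k w (j + M k) → a ≤ w ∧ w < b) :
    (F k).KVisible k u v := by
  have hu0 : (0 : ℝ) < (u.val : ℝ) + 1 := by positivity
  have hv0 : (0 : ℝ) < (v.val : ℝ) + 1 := by positivity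
  refine ⟨(u.val : ℝ) + 1, -((v.val : ℝ) + 1), wa k j, wb k j, hu0.ne', by linarith, by linarith,
    wab k j, wab_lt k j, ?_, ?_, ?_⟩
  · rintro t ⟨ht1, ht2⟩
    exact present_of_P k _ j _ t hu ht1 ht2
  · rintro t ⟨ht1, ht2⟩
    rw [exp_neg]
    apply present_of_P k _ (j + M k) _ _ hv
    · rw [wa_add]; linarith
    · rw [wb_add]; linarith
  · apply card_le _ k a b hab
    rintro w ⟨hwu, hwv, z, hz1, s, hs, t, ⟨ht1, ht2⟩, hz⟩
    have hs' := hs
    rw [Set.uIcc_comm, Set.uIcc_of_le (by linarith)] at hs'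
    rw [hz] at hz1
    have hw0 : (0 : ℝ) < (w.val : ℝ) + 1 := by positivity
    have h7 : u.val ≠ w.val := fun h => hwu (Fin.ext h.symm)
    have h8 : w.val ≠ v.val := fun h => hwv (Fin.ext h)
    rcases lt_trichotomy s 0 with hs0 | hs0 | hs0
    · obtain ⟨s', rfl⟩ : ∃ s', s = -s' := ⟨-s, by ring⟩
      rw [exp_neg] at hz1
      obtain ⟨h1, h2⟩ := P_of_present k w.val (j + M k) _ s' (t + Real.pi) hw0 (by linarith) hj
        (by rw [wa_add]; linarith) (by rw [wb_add]; linarith) hz1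
      rw [h1] at hs'
      obtain ⟨h3, h4⟩ := hs'
      have h6 : w.val ≤ v.val := by
        have : (w.val : ℝ) ≤ v.val := by linarith
        exact_mod_cast this
      exact H2 w.val w.isLt (by omega) (by omega) h2
    · exfalso
      rw [hs0] at hz1
      obtain ⟨α, _, he⟩ := hz1
      simp only [Complex.ofReal_zero, zero_mul] at he
      have h1 := congrArg (fun z : ℂ => ‖z‖) he
      simp only [norm_mul, Complex.norm_exp_ofReal_mul_I, mul_one, Complex.norm_real,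
        Real.norm_eq_abs, norm_zero] at h1
      have h9 : |(F k).r w| = (w.val : ℝ) + 1 := abs_of_pos hw0
      rw [h9] at h1
      linarith
    · obtain ⟨h1, h2⟩ := P_of_present k w.val j _ s t hw0 hs0 (by omega) ht1 ht2 hz1
      rw [h1] at hs'
      obtain ⟨h3, h4⟩ := hs'
      have h6 : w.val ≤ u.val := by
        have : (w.val : ℝ) ≤ u.val := by linarith
        exact_mod_cast this
      exact H1 w.val w.isLt (by omega) (by omega) h2

lemma cone_comm (x y a b : ℝ) : cone x y a b = cone y x a b := by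
  unfold cone
  rw [Set.uIcc_comm]

lemma visible_symm {V : Type} (G : ArcFamily V) (k : ℕ) (u v : V) (h : G.KVisible k u v) :
    G.KVisible k v u := by
  obtain ⟨x, y, a, b, h1, h2, h3, h4, h5, h6, h7, h8⟩ := h
  refine ⟨y, x, a, b, h2, h1, h3.symm, h4, h5, h7, h6, ?_⟩
  rw [cone_comm]
  have : {w : V | w ≠ v ∧ w ≠ u ∧ (G.A w ∩ cone x y a b).Nonempty}
      = {w : V | w ≠ u ∧ w ≠ v ∧ (G.A w ∩ cone x y a b).Nonempty} := by
    ext w
    simp only [Set.mem_ofPred_eq]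
    tauto
  rw [this]
  exact h8

lemma vis_0_0 (k : ℕ) (u v : Fin (5 * k + 6)) (huv : u.val < v.val)
    (hu1 : 0 ≤ u.val) (hu2 : u.val < k+1) (hv1 : 0 ≤ v.val) (hv2 : v.val < k+1) :
    (F k).KVisible k u v := by
  have hSu := ST k u.val
  have hSv := ST k v.val
  refine same_ray k u v huv (9*k+11+v.val) (u.val+1) v.val ?_ ?_ ?_ ?_ ?_
  · unfold M; omega
  · unfold P M; omega
  · unfold P M; omega
  · omega
  · intro w hw1 hw2 hw3 hP
    unfold P M at hP
    rcases ST k w with h | h | h | h | h | h <;> omega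

lemma vis_0_1 (k : ℕ) (u v : Fin (5 * k + 6)) (huv : u.val < v.val)
    (hu1 : 0 ≤ u.val) (hu2 : u.val < k+1) (hv1 : k+1 ≤ v.val) (hv2 : v.val < 2*k+2) :
    (F k).KVisible k u v := by
  have hSu := ST k u.val
  have hSv := ST k v.val
  apply visible_symm
  refine centre k v u (5*k+4-v.val) 0 u.val ?_ ?_ ?_ ?_ ?_ ?_
  · unfold M; omega
  · unfold P M; omega
  · unfold P M; omega
  · omega
  · intro w hw1 hw2 hw3 hP
    unfold P M at hP
    rcases ST k w with h | h | h | h | h | h <;> omega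
  · intro w hw1 hw2 hw3 hP
    unfold P M at hP
    rcases ST k w with h | h | h | h | h | h <;> omega

lemma vis_0_2 (k : ℕ) (u v : Fin (5 * k + 6)) (huv : u.val < v.val)
    (hu1 : 0 ≤ u.val) (hu2 : u.val < k+1) (hv1 : 2*k+2 ≤ v.val) (hv2 : v.val < 3*k+3) :
    (F k).KVisible k u v := by
  have hSu := ST k u.val
  have hSv := ST k v.val
  apply visible_symm
  refine centre k v u (3*k+2-v.val) 0 u.val ?_ ?_ ?_ ?_ ?_ ?_
  · unfold M; omega
  · unfold P M; omega
  · unfold P M; omega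
  · omega
  · intro w hw1 hw2 hw3 hP
    unfold P M at hP
    rcases ST k w with h | h | h | h | h | h <;> omega
  · intro w hw1 hw2 hw3 hP
    unfold P M at hP
    rcases ST k w with h | h | h | h | h | h <;> omega

lemma vis_0_3 (k : ℕ) (u v : Fin (5 * k + 6)) (huv : u.val < v.val)
    (hu1 : 0 ≤ u.val) (hu2 : u.val < k+1) (hv1 : 3*k+3 ≤ v.val) (hv2 : v.val < 4*k+4) :
    (F k).KVisible k u v := by
  have hSu := ST k u.val
  have hSv := ST k v.val
  refine same_ray k u v huv (9*k+11+u.val) (3*k+3) v.val ?_ ?_ ?_ ?_ ?_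
  · unfold M; omega
  · unfold P M; omega
  · unfold P M; omega
  · omega
  · intro w hw1 hw2 hw3 hP
    unfold P M at hP
    rcases ST k w with h | h | h | h | h | h <;> omega

lemma vis_0_4 (k : ℕ) (u v : Fin (5 * k + 6)) (huv : u.val < v.val)
    (hu1 : 0 ≤ u.val) (hu2 : u.val < k+1) (hv1 : 4*k+4 ≤ v.val) (hv2 : v.val < 5*k+5) :
    (F k).KVisible k u v := by
  have hSu := ST k u.val
  have hSv := ST k v.val
  refine same_ray k u v huv (15*k+15-u.val) (4*k+4) v.val ?_ ?_ ?_ ?_ ?_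
  · unfold M; omega
  · unfold P M; omega
  · unfold P M; omega
  · omega
  · intro w hw1 hw2 hw3 hP
    unfold P M at hP
    rcases ST k w with h | h | h | h | h | h <;> omega

lemma vis_0_5 (k : ℕ) (u v : Fin (5 * k + 6)) (huv : u.val < v.val)
    (hu1 : 0 ≤ u.val) (hu2 : u.val < k+1) (hv1 : 5*k+5 ≤ v.val) (hv2 : v.val < 5*k+6) :
    (F k).KVisible k u v := by
  have hSu := ST k u.val
  have hSv := ST k v.val
  refine centre k u v (9*k+11+u.val) 0 u.val ?_ ?_ ?_ ?_ ?_ ?_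
  · unfold M; omega
  · unfold P M; omega
  · unfold P M; omega
  · omega
  · intro w hw1 hw2 hw3 hP
    unfold P M at hP
    rcases ST k w with h | h | h | h | h | h <;> omega
  · intro w hw1 hw2 hw3 hP
    unfold P M at hP
    rcases ST k w with h | h | h | h | h | h <;> omega

lemma vis_1_1 (k : ℕ) (u v : Fin (5 * k + 6)) (huv : u.val < v.val)
    (hu1 : k+1 ≤ u.val) (hu2 : u.val < 2*k+2) (hv1 : k+1 ≤ v.val) (hv2 : v.val < 2*k+2) :
    (F k).KVisible k u v := by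
  have hSu := ST k u.val
  have hSv := ST k v.val
  refine same_ray k u v huv (5*k+4-u.val) (u.val+1) v.val ?_ ?_ ?_ ?_ ?_
  · unfold M; omega
  · unfold P M; omega
  · unfold P M; omega
  · omega
  · intro w hw1 hw2 hw3 hP
    unfold P M at hP
    rcases ST k w with h | h | h | h | h | h <;> omega

lemma vis_1_2 (k : ℕ) (u v : Fin (5 * k + 6)) (huv : u.val < v.val)
    (hu1 : k+1 ≤ u.val) (hu2 : u.val < 2*k+2) (hv1 : 2*k+2 ≤ v.val) (hv2 : v.val < 3*k+3) :
    (F k).KVisible k u v := by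
  have hSu := ST k u.val
  have hSv := ST k v.val
  refine same_ray k u v huv (4*k+3+v.val) (u.val+1) (2*k+2) ?_ ?_ ?_ ?_ ?_
  · unfold M; omega
  · unfold P M; omega
  · unfold P M; omega
  · omega
  · intro w hw1 hw2 hw3 hP
    unfold P M at hP
    rcases ST k w with h | h | h | h | h | h <;> omega

lemma vis_1_3 (k : ℕ) (u v : Fin (5 * k + 6)) (huv : u.val < v.val)
    (hu1 : k+1 ≤ u.val) (hu2 : u.val < 2*k+2) (hv1 : 3*k+3 ≤ v.val) (hv2 : v.val < 4*k+4) :
    (F k).KVisible k u v := by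
  have hSu := ST k u.val
  have hSv := ST k v.val
  refine same_ray k u v huv (10*k+9-u.val) (3*k+3) v.val ?_ ?_ ?_ ?_ ?_
  · unfold M; omega
  · unfold P M; omega
  · unfold P M; omega
  · omega
  · intro w hw1 hw2 hw3 hP
    unfold P M at hP
    rcases ST k w with h | h | h | h | h | h <;> omega

lemma vis_1_4 (k : ℕ) (u v : Fin (5 * k + 6)) (huv : u.val < v.val)
    (hu1 : k+1 ≤ u.val) (hu2 : u.val < 2*k+2) (hv1 : 4*k+4 ≤ v.val) (hv2 : v.val < 5*k+5) :
    (F k).KVisible k u v := by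
  have hSu := ST k u.val
  have hSv := ST k v.val
  refine centre k u v (3*k+3+v.val) (k+1) u.val ?_ ?_ ?_ ?_ ?_ ?_
  · unfold M; omega
  · unfold P M; omega
  · unfold P M; omega
  · omega
  · intro w hw1 hw2 hw3 hP
    unfold P M at hP
    rcases ST k w with h | h | h | h | h | h <;> omega
  · intro w hw1 hw2 hw3 hP
    unfold P M at hP
    rcases ST k w with h | h | h | h | h | h <;> omega

lemma vis_1_5 (k : ℕ) (u v : Fin (5 * k + 6)) (huv : u.val < v.val)
    (hu1 : k+1 ≤ u.val) (hu2 : u.val < 2*k+2) (hv1 : 5*k+5 ≤ v.val) (hv2 : v.val < 5*k+6) :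
    (F k).KVisible k u v := by
  have hSu := ST k u.val
  have hSv := ST k v.val
  refine centre k u v (10*k+9-u.val) (k+1) u.val ?_ ?_ ?_ ?_ ?_ ?_
  · unfold M; omega
  · unfold P M; omega
  · unfold P M; omega
  · omega
  · intro w hw1 hw2 hw3 hP
    unfold P M at hP
    rcases ST k w with h | h | h | h | h | h <;> omega
  · intro w hw1 hw2 hw3 hP
    unfold P M at hP
    rcases ST k w with h | h | h | h | h | h <;> omega

lemma vis_2_2 (k : ℕ) (u v : Fin (5 * k + 6)) (huv : u.val < v.val)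
    (hu1 : 2*k+2 ≤ u.val) (hu2 : u.val < 3*k+3) (hv1 : 2*k+2 ≤ v.val) (hv2 : v.val < 3*k+3) :
    (F k).KVisible k u v := by
  have hSu := ST k u.val
  have hSv := ST k v.val
  refine same_ray k u v huv (3*k+2-u.val) (u.val+1) v.val ?_ ?_ ?_ ?_ ?_
  · unfold M; omega
  · unfold P M; omega
  · unfold P M; omega
  · omega
  · intro w hw1 hw2 hw3 hP
    unfold P M at hP
    rcases ST k w with h | h | h | h | h | h <;> omega

lemma vis_2_3 (k : ℕ) (u v : Fin (5 * k + 6)) (huv : u.val < v.val)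
    (hu1 : 2*k+2 ≤ u.val) (hu2 : u.val < 3*k+3) (hv1 : 3*k+3 ≤ v.val) (hv2 : v.val < 4*k+4) :
    (F k).KVisible k u v := by
  have hSu := ST k u.val
  have hSv := ST k v.val
  refine same_ray k u v huv (9*k+8-v.val) (u.val+1) (3*k+3) ?_ ?_ ?_ ?_ ?_
  · unfold M; omega
  · unfold P M; omega
  · unfold P M; omega
  · omega
  · intro w hw1 hw2 hw3 hP
    unfold P M at hP
    rcases ST k w with h | h | h | h | h | h <;> omega

lemma vis_2_4 (k : ℕ) (u v : Fin (5 * k + 6)) (huv : u.val < v.val)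
    (hu1 : 2*k+2 ≤ u.val) (hu2 : u.val < 3*k+3) (hv1 : 4*k+4 ≤ v.val) (hv2 : v.val < 5*k+5) :
    (F k).KVisible k u v := by
  have hSu := ST k u.val
  have hSv := ST k v.val
  refine same_ray k u v huv (6*k+5-v.val) (u.val+1) (3*k+3) ?_ ?_ ?_ ?_ ?_
  · unfold M; omega
  · unfold P M; omega
  · unfold P M; omega
  · omega
  · intro w hw1 hw2 hw3 hP
    unfold P M at hP
    rcases ST k w with h | h | h | h | h | h <;> omega

lemma vis_2_5 (k : ℕ) (u v : Fin (5 * k + 6)) (huv : u.val < v.val)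
    (hu1 : 2*k+2 ≤ u.val) (hu2 : u.val < 3*k+3) (hv1 : 5*k+5 ≤ v.val) (hv2 : v.val < 5*k+6) :
    (F k).KVisible k u v := by
  have hSu := ST k u.val
  have hSv := ST k v.val
  refine same_ray k u v huv (3*k+2-u.val) (u.val+1) (3*k+3) ?_ ?_ ?_ ?_ ?_
  · unfold M; omega
  · unfold P M; omega
  · unfold P M; omega
  · omega
  · intro w hw1 hw2 hw3 hP
    unfold P M at hP
    rcases ST k w with h | h | h | h | h | h <;> omega

lemma vis_3_3 (k : ℕ) (u v : Fin (5 * k + 6)) (huv : u.val < v.val)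
    (hu1 : 3*k+3 ≤ u.val) (hu2 : u.val < 4*k+4) (hv1 : 3*k+3 ≤ v.val) (hv2 : v.val < 4*k+4) :
    (F k).KVisible k u v := by
  have hSu := ST k u.val
  have hSv := ST k v.val
  refine same_ray k u v huv (9*k+8-u.val) (u.val+1) v.val ?_ ?_ ?_ ?_ ?_
  · unfold M; omega
  · unfold P M; omega
  · unfold P M; omega
  · omega
  · intro w hw1 hw2 hw3 hP
    unfold P M at hP
    rcases ST k w with h | h | h | h | h | h <;> omega

lemma vis_3_4 (k : ℕ) (u v : Fin (5 * k + 6)) (huv : u.val < v.val)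
    (hu1 : 3*k+3 ≤ u.val) (hu2 : u.val < 4*k+4) (hv1 : 4*k+4 ≤ v.val) (hv2 : v.val < 5*k+5) :
    (F k).KVisible k u v := by
  have hSu := ST k u.val
  have hSv := ST k v.val
  refine same_ray k u v huv (16*k+16-u.val) (4*k+4) v.val ?_ ?_ ?_ ?_ ?_
  · unfold M; omega
  · unfold P M; omega
  · unfold P M; omega
  · omega
  · intro w hw1 hw2 hw3 hP
    unfold P M at hP
    rcases ST k w with h | h | h | h | h | h <;> omega

lemma vis_3_5 (k : ℕ) (u v : Fin (5 * k + 6)) (huv : u.val < v.val)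
    (hu1 : 3*k+3 ≤ u.val) (hu2 : u.val < 4*k+4) (hv1 : 5*k+5 ≤ v.val) (hv2 : v.val < 5*k+6) :
    (F k).KVisible k u v := by
  have hSu := ST k u.val
  have hSv := ST k v.val
  refine centre k u v (9*k+9) (3*k+3) u.val ?_ ?_ ?_ ?_ ?_ ?_
  · unfold M; omega
  · unfold P M; omega
  · unfold P M; omega
  · omega
  · intro w hw1 hw2 hw3 hP
    unfold P M at hP
    rcases ST k w with h | h | h | h | h | h <;> omega
  · intro w hw1 hw2 hw3 hP
    unfold P M at hP
    rcases ST k w with h | h | h | h | h | h <;> omega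

lemma vis_4_4 (k : ℕ) (u v : Fin (5 * k + 6)) (huv : u.val < v.val)
    (hu1 : 4*k+4 ≤ u.val) (hu2 : u.val < 5*k+5) (hv1 : 4*k+4 ≤ v.val) (hv2 : v.val < 5*k+5) :
    (F k).KVisible k u v := by
  have hSu := ST k u.val
  have hSv := ST k v.val
  refine same_ray k u v huv (6*k+5-u.val) (u.val+1) v.val ?_ ?_ ?_ ?_ ?_
  · unfold M; omega
  · unfold P M; omega
  · unfold P M; omega
  · omega
  · intro w hw1 hw2 hw3 hP
    unfold P M at hP
    rcases ST k w with h | h | h | h | h | h <;> omega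

lemma vis_4_5 (k : ℕ) (u v : Fin (5 * k + 6)) (huv : u.val < v.val)
    (hu1 : 4*k+4 ≤ u.val) (hu2 : u.val < 5*k+5) (hv1 : 5*k+5 ≤ v.val) (hv2 : v.val < 5*k+6) :
    (F k).KVisible k u v := by
  have hSu := ST k u.val
  have hSv := ST k v.val
  refine same_ray k u v huv (17*k+19) (u.val+1) (5*k+5) ?_ ?_ ?_ ?_ ?_
  · unfold M; omega
  · unfold P M; omega
  · unfold P M; omega
  · omega
  · intro w hw1 hw2 hw3 hP
    unfold P M at hP
    rcases ST k w with h | h | h | h | h | h <;> omega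

lemma visible_of_lt (k : ℕ) (u v : Fin (5 * k + 6)) (huv : u.val < v.val) :
    (F k).KVisible k u v := by
  have hu := u.isLt
  have hv := v.isLt
  have bu : u.val < k + 1 ∨ (k + 1 ≤ u.val ∧ u.val < 2 * k + 2) ∨
      (2 * k + 2 ≤ u.val ∧ u.val < 3 * k + 3) ∨ (3 * k + 3 ≤ u.val ∧ u.val < 4 * k + 4) ∨
      (4 * k + 4 ≤ u.val ∧ u.val < 5 * k + 5) := by omega
  have bv : v.val < k + 1 ∨ (k + 1 ≤ v.val ∧ v.val < 2 * k + 2) ∨
      (2 * k + 2 ≤ v.val ∧ v.val < 3 * k + 3) ∨ (3 * k + 3 ≤ v.val ∧ v.val < 4 * k + 4) ∨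
      (4 * k + 4 ≤ v.val ∧ v.val < 5 * k + 5) ∨ (5 * k + 5 ≤ v.val) := by omega
  rcases bu with hu' | ⟨hu1, hu2⟩ | ⟨hu1, hu2⟩ | ⟨hu1, hu2⟩ | ⟨hu1, hu2⟩
  · rcases bv with hv' | ⟨hv1, hv2⟩ | ⟨hv1, hv2⟩ | ⟨hv1, hv2⟩ | ⟨hv1, hv2⟩ | hv1
    · exact vis_0_0 k u v huv (Nat.zero_le _) hu' (Nat.zero_le _) hv'
    · exact vis_0_1 k u v huv (Nat.zero_le _) hu' hv1 hv2
    · exact vis_0_2 k u v huv (Nat.zero_le _) hu' hv1 hv2
    · exact vis_0_3 k u v huv (Nat.zero_le _) hu' hv1 hv2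
    · exact vis_0_4 k u v huv (Nat.zero_le _) hu' hv1 hv2
    · exact vis_0_5 k u v huv (Nat.zero_le _) hu' hv1 hv
  · rcases bv with hv' | ⟨hv1, hv2⟩ | ⟨hv1, hv2⟩ | ⟨hv1, hv2⟩ | ⟨hv1, hv2⟩ | hv1
    · omega
    · exact vis_1_1 k u v huv hu1 hu2 hv1 hv2
    · exact vis_1_2 k u v huv hu1 hu2 hv1 hv2
    · exact vis_1_3 k u v huv hu1 hu2 hv1 hv2
    · exact vis_1_4 k u v huv hu1 hu2 hv1 hv2
    · exact vis_1_5 k u v huv hu1 hu2 hv1 hv
  · rcases bv with hv' | ⟨hv1, hv2⟩ | ⟨hv1, hv2⟩ | ⟨hv1, hv2⟩ | ⟨hv1, hv2⟩ | hv1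
    · omega
    · omega
    · exact vis_2_2 k u v huv hu1 hu2 hv1 hv2
    · exact vis_2_3 k u v huv hu1 hu2 hv1 hv2
    · exact vis_2_4 k u v huv hu1 hu2 hv1 hv2
    · exact vis_2_5 k u v huv hu1 hu2 hv1 hv
  · rcases bv with hv' | ⟨hv1, hv2⟩ | ⟨hv1, hv2⟩ | ⟨hv1, hv2⟩ | ⟨hv1, hv2⟩ | hv1
    · omega
    · omega
    · omega
    · exact vis_3_3 k u v huv hu1 hu2 hv1 hv2
    · exact vis_3_4 k u v huv hu1 hu2 hv1 hv2
    · exact vis_3_5 k u v huv hu1 hu2 hv1 hv
  · rcases bv with hv' | ⟨hv1, hv2⟩ | ⟨hv1, hv2⟩ | ⟨hv1, hv2⟩ | ⟨hv1, hv2⟩ | hv1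
    · omega
    · omega
    · omega
    · omega
    · exact vis_4_4 k u v huv hu1 hu2 hv1 hv2
    · exact vis_4_5 k u v huv hu1 hu2 hv1 hv

/-- For every `k`, the complete graph on `5k+6` vertices is an arc `k`-visibility graph. -/
theorem result (k : ℕ) : IsArcKVis k (⊤ : SimpleGraph (Fin (5 * k + 6))) := by
  refine ⟨F k, ?_⟩
  intro u v huv
  simp only [SimpleGraph.top_adj]
  refine ⟨fun _ => ?_, fun _ => huv⟩
  rcases lt_or_gt_of_ne (fun h : u.val = v.val => huv (Fin.ext h)) with h | h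
  · exact visible_of_lt k u v h
  · exact visible_symm _ _ _ _ (visible_of_lt k v u h)

end Pool.Agent.Results.MP_f47cd5_co.CompleteArcLower
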